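import Pool.Agent.SL3.Mlb

/-!
# Scale selection for a bounded monotone function of finite sets (helper7, for MP_87578a)
-/

set_option autoImplicit false

namespace Pool.Agent.E74

open Finset

variable {V : Type} [DecidableEq V]

/-- one scale -/
theorem ext_stable {q : Finset V → ℝ} (h0 : ∀ Z, 0 ≤ q Z) (h1 : ∀ Z, q Z ≤ 1) {t : ℝ} (ht : 0 < t)
    (Z : Finset V) : ∃ Z' : Finset V, Z ⊆ Z' ∧ Z'.card ≤ Z.card + ⌈1 / t⌉₊ ∧ ∀ u, q (insert u Z') - q Z' ≤ t := by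
  have key : ∀ N : ℕ, (∃ Z' : Finset V, Z ⊆ Z' ∧ Z'.card ≤ Z.card + N ∧ ∀ u, q (insert u Z') - q Z' ≤ t) ∨
      (∃ Z' : Finset V, Z ⊆ Z' ∧ Z'.card ≤ Z.card + N ∧ (N : ℝ) * t ≤ q Z') := by
    intro N
    induction N with
    | zero => exact Or.inr ⟨Z, Subset.refl _, le_rfl, by simpa using h0 Z⟩
    | succ N ih =>
      rcases ih with ⟨Z', a, b, c⟩ | ⟨Z', a, b, c⟩
      · exact Or.inl ⟨Z', a, by omega, c⟩
      · by_cases h : ∀ u, q (insert u Z') - q Z' ≤ t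
        · exact Or.inl ⟨Z', a, by omega, h⟩
        · push Not at h
          obtain ⟨u, hu⟩ := h
          refine Or.inr ⟨insert u Z', a.trans (subset_insert _ _), ?_, ?_⟩
          · have := card_insert_le u Z'
            omega
          · push_cast
            linarith
  rcases key ⌈1 / t⌉₊ with h | ⟨Z', a, b, c⟩
  · exact h
  · refine ⟨Z', a, b, fun u => ?_⟩
    have h2 : 1 / t ≤ (⌈1 / t⌉₊ : ℝ) := Nat.le_ceil _
    have h3 : 1 ≤ (⌈1 / t⌉₊ : ℝ) * t := by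
      rwa [div_le_iff₀ ht] at h2
    have h4 := h1 (insert u Z')
    linarith

/-- the sizes -/
noncomputable def siz (t0 : ℝ) (t : ℕ → ℝ) : ℕ → ℕ
  | 0 => ⌈1 / t0⌉₊
  | i + 1 => (range (siz t0 t i + 1)).sup fun j => j + ⌈1 / min (t j) t0⌉₊

theorem le_siz (t0 : ℝ) (t : ℕ → ℝ) {i j : ℕ} (h : j ≤ siz t0 t i) :
    j + ⌈1 / min (t j) t0⌉₊ ≤ siz t0 t (i + 1) := by
  rw [siz]
  exact le_sup (f := fun j => j + ⌈1 / min (t j) t0⌉₊) (mem_range.2 (by omega))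

theorem siz_mono (t0 : ℝ) (t : ℕ → ℝ) (i : ℕ) : siz t0 t i ≤ siz t0 t (i + 1) :=
  le_trans (Nat.le_add_right _ _) (le_siz t0 t le_rfl)

/-- **two scales**: the bound `siz t0 t (⌈1 / ε⌉₊ + 1)` depends only on `ε`, `t0`, `t` -/
theorem two_scales {q : Finset V → ℝ} (h0 : ∀ Z, 0 ≤ q Z) (h1 : ∀ Z, q Z ≤ 1) {ε t0 : ℝ} (hε : 0 < ε)
    (ht0 : 0 < t0) {t : ℕ → ℝ} (ht : ∀ i, 0 < t i) :
    ∃ Z Z' : Finset V, Z ⊆ Z' ∧ Z'.card ≤ siz t0 t (⌈1 / ε⌉₊ + 1) ∧ q Z' - q Z ≤ ε ∧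
      (∀ u, q (insert u Z) - q Z ≤ t0) ∧ ∀ u, q (insert u Z') - q Z' ≤ t Z.card := by
  have step : ∀ i : ℕ, ∀ Z : Finset V, Z.card ≤ siz t0 t i → ∃ Z' : Finset V, Z ⊆ Z' ∧
      Z'.card ≤ siz t0 t (i + 1) ∧ (∀ u, q (insert u Z') - q Z' ≤ t Z.card) ∧
      (∀ u, q (insert u Z') - q Z' ≤ t0) := by
    intro i Z hZ
    obtain ⟨Z', a, b, c⟩ := ext_stable h0 h1 (lt_min (ht Z.card) ht0) Z
    exact ⟨Z', a, b.trans (le_siz t0 t hZ), fun u => (c u).trans (min_le_left _ _),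
      fun u => (c u).trans (min_le_right _ _)⟩
  have key : ∀ N : ℕ, (∃ Z Z' : Finset V, Z ⊆ Z' ∧ Z'.card ≤ siz t0 t N ∧ q Z' - q Z ≤ ε ∧
      (∀ u, q (insert u Z) - q Z ≤ t0) ∧ ∀ u, q (insert u Z') - q Z' ≤ t Z.card) ∨
      (∃ Z : Finset V, Z.card ≤ siz t0 t N ∧ (∀ u, q (insert u Z) - q Z ≤ t0) ∧ (N : ℝ) * ε ≤ q Z) := by
    intro N
    induction N with
    | zero =>
      obtain ⟨Z, _, b, c⟩ := ext_stable h0 h1 ht0 (∅ : Finset V)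
      refine Or.inr ⟨Z, ?_, c, by simpa using h0 Z⟩
      simpa [siz] using b
    | succ N ih =>
      rcases ih with ⟨Z, Z', a, b, c⟩ | ⟨Z, b, c, d⟩
      · exact Or.inl ⟨Z, Z', a, b.trans (siz_mono t0 t N), c⟩
      · obtain ⟨Z', e, f, g, h⟩ := step N Z b
        by_cases hd : q Z' - q Z ≤ ε
        · exact Or.inl ⟨Z, Z', e, f, hd, c, g⟩
        · push Not at hd
          refine Or.inr ⟨Z', f, h, ?_⟩
          push_cast
          linarith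
  rcases key ⌈1 / ε⌉₊ with ⟨Z, Z', a, b, c⟩ | ⟨Z, b, c, d⟩
  · exact ⟨Z, Z', a, b.trans (siz_mono t0 t _), c⟩
  · obtain ⟨Z', e, f, g, h⟩ := step _ Z b
    refine ⟨Z, Z', e, f, ?_, c, g⟩
    have h2 : 1 / ε ≤ (⌈1 / ε⌉₊ : ℝ) := Nat.le_ceil _
    have h3 : 1 ≤ (⌈1 / ε⌉₊ : ℝ) * ε := by
      rwa [div_le_iff₀ hε] at h2
    have h4 := h1 Z'
    linarith

end Pool.Agent.E74
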